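import Mathlib

open MeasureTheory ProbabilityTheory

namespace Pool.Agent.Results.MP_eb4cdf_pr.Counter

/-- The buffer regimes: unlimited buffers, manufacturing blocking with common buffer size `b`,
communications blocking with common buffer size `b`. -/
inductive Regime where
  | unlimited : Regime
  | manufacturing : ℕ → Regime
  | communications : ℕ → Regime

/-- Departure time `D m r T i j` of job `i` from station `j` (both counted from `1`) in a line of
`m` stations under regime `r`; `T i j` is the time job `i + 1` occupies station `j + 1`.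
Terms with a zero (or, through truncated subtraction, negative) index vanish, and the blocking
term is dropped at station `m`. -/
noncomputable def D (m : ℕ) (r : Regime) (T : ℕ → ℕ → ℝ) : ℕ → ℕ → ℝ
  | 0, _ => 0
  | _ + 1, 0 => 0
  | i + 1, j + 1 =>
    match r with
    | .unlimited => max (D m r T (i + 1) j) (D m r T i (j + 1)) + T i j
    | .manufacturing b =>
      if j + 1 < m then
        max (max (D m r T (i + 1) j + T i j) (D m r T i (j + 1) + T i j)) (D m r T (i - b) (j + 2))
      else max (D m r T (i + 1) j + T i j) (D m r T i (j + 1) + T i j)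
    | .communications b =>
      if j + 1 < m then
        max (max (D m r T (i + 1) j) (D m r T i (j + 1))) (D m r T (i - b) (j + 2)) + T i j
      else max (D m r T (i + 1) j) (D m r T i (j + 1)) + T i j
termination_by i j => (i, j)
decreasing_by
  all_goals first
    | exact Prod.Lex.right _ (by omega)
    | exact Prod.Lex.left _ _ (by omega)

/-- Service times `X (i, j) / s j` (indices from `0`). -/
noncomputable def serviceTime {n m : ℕ} (X : Fin n × Fin m → ℝ) (s : Fin m → ℝ) (i j : ℕ) : ℝ :=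
  if h : i < n ∧ j < m then X (⟨i, h.1⟩, ⟨j, h.2⟩) / s ⟨j, h.2⟩ else 0

/-- The makespan `D n m` for work amounts `X` and speeds `s`. -/
noncomputable def makespan (n m : ℕ) (r : Regime) (s : Fin m → ℝ) (X : Fin n × Fin m → ℝ) : ℝ :=
  D m r (serviceTime X s) n m

/-- Expected makespan when the work amounts are independent with common law `μ`. -/
noncomputable def F (n m : ℕ) (r : Regime) (μ : Measure ℝ) (s : Fin m → ℝ) : ℝ :=
  ∫ X, makespan n m r s X ∂(Measure.pi fun _ : Fin n × Fin m => μ)

/-- Admissible allocations: positive speeds summing to one. -/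
def InSimplex {m : ℕ} (s : Fin m → ℝ) : Prop := (∀ j, 0 < s j) ∧ ∑ j, s j = 1

/-- Bowl-shaped: symmetric, and nondecreasing on the first `⌈m/2⌉` stations. -/
def Bowl {m : ℕ} (s : Fin m → ℝ) : Prop :=
  (∀ j, s j = s j.rev) ∧ ∀ j k : Fin m, j ≤ k → (k : ℕ) + 1 ≤ (m + 1) / 2 → s j ≤ s k

/-! ### The critical path formula for two jobs and three stations -/

lemma D_two_three (r : Regime) (hr : r ≠ .communications 0) (T : ℕ → ℕ → ℝ)
    (h : ∀ i j, 0 ≤ T i j) :
    D 3 r T 2 3 = max (max (T 0 0 + T 1 0 + T 1 1 + T 1 2) (T 0 0 + T 0 1 + T 1 1 + T 1 2))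
      (T 0 0 + T 0 1 + T 0 2 + T 1 2) := by
  have h00 := h 0 0
  have h01 := h 0 1
  have h02 := h 0 2
  have h10 := h 1 0
  have h11 := h 1 1
  have h12 := h 1 2
  have hz : ∀ x : ℝ, 0 ≤ x → max x 0 = x := fun x hx => max_eq_left hx
  have hz' : ∀ x : ℝ, 0 ≤ x → max 0 x = x := fun x hx => max_eq_right hx
  rcases r with _ | b | b
  · simp only [D]
    simp (disch := positivity) only [max_self, zero_add, hz, hz', ← max_add_add_right]
  · rcases b with _ | b
    · simp [D]
      simp (disch := positivity) only [max_self, zero_add, hz, hz', ← max_add_add_right]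
    · have : 1 - (b + 1) = 0 := by omega
      simp [D, this]
      simp (disch := positivity) only [max_self, zero_add, hz, hz', ← max_add_add_right]
  · rcases b with _ | b
    · exact absurd rfl hr
    · have : 1 - (b + 1) = 0 := by omega
      simp [D, this]
      simp (disch := positivity) only [max_self, zero_add, hz, hz', ← max_add_add_right]

lemma measurable_D {α : Type*} [MeasurableSpace α] (m : ℕ) (r : Regime) (T : α → ℕ → ℕ → ℝ)
    (hT : ∀ i j, Measurable fun x => T x i j) :
    ∀ i j, Measurable fun x => D m r (T x) i j := by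
  intro i
  induction i using Nat.strong_induction_on with
  | _ i ih =>
    intro j
    rcases i with _ | i
    · simp [D]
    · induction j with
      | zero => simp [D]
      | succ j ihj =>
        have h1 := ih i (by omega) (j + 1)
        have h2 := hT i j
        rcases r with _ | b | b
        · simp only [D]
          exact (ihj.max h1).add h2
        · have h3 := ih (i - b) (by omega) (j + 2)
          simp only [D]
          split_ifs
          · exact ((ihj.add h2).max (h1.add h2)).max h3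
          · exact (ihj.add h2).max (h1.add h2)
        · have h3 := ih (i - b) (by omega) (j + 2)
          simp only [D]
          split_ifs
          · exact ((ihj.max h1).max h3).add h2
          · exact (ihj.max h1).add h2

lemma measurable_makespan (n m : ℕ) (r : Regime) (s : Fin m → ℝ) :
    Measurable (makespan n m r s) := by
  apply measurable_D m r (fun X => serviceTime X s)
  intro i j
  unfold serviceTime
  split_ifs
  · exact (measurable_pi_apply _).div_const _
  · exact measurable_const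

/-! ### The law: uniform on `200, …, 206` -/

noncomputable def g (a : Fin 7) : ℝ := ((200 + (a : ℕ) : ℕ) : ℝ)

noncomputable def ν : Measure (Fin 7) := uniformOn Set.univ

instance : IsProbabilityMeasure ν := by unfold ν; infer_instance

noncomputable def μ₀ : Measure ℝ := ν.map g

lemma g_meas : Measurable g := Measurable.of_discrete

instance : IsProbabilityMeasure μ₀ := Measure.isProbabilityMeasure_map g_meas.aemeasurable

lemma pi_eq : (Measure.pi fun _ : Fin 2 × Fin 3 => μ₀) =
    (Measure.pi fun _ : Fin 2 × Fin 3 => ν).map (fun x i => g (x i)) := by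
  rw [Measure.pi_map_pi (fun _ => g_meas.aemeasurable)]
  rfl

def e : (Fin 7 × Fin 7 × Fin 7 × Fin 7 × Fin 7 × Fin 7) ≃ (Fin 2 × Fin 3 → Fin 7) where
  toFun x := fun p => ![![x.1, x.2.1, x.2.2.1], ![x.2.2.2.1, x.2.2.2.2.1, x.2.2.2.2.2]] p.1 p.2
  invFun f := (f (0, 0), f (0, 1), f (0, 2), f (1, 0), f (1, 1), f (1, 2))
  left_inv x := by rfl
  right_inv f := by
    funext p
    obtain ⟨i, j⟩ := p
    fin_cases i <;> fin_cases j <;> rfl

lemma integral_eq (φ : (Fin 2 × Fin 3 → ℝ) → ℝ) (hφ : Measurable φ) :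
    ∫ X, φ X ∂(Measure.pi fun _ : Fin 2 × Fin 3 => μ₀) =
      (1 / 7 ^ 6) * ∑ x, φ (fun p => g (e x p)) := by
  rw [pi_eq, integral_map (Measurable.of_discrete).aemeasurable hφ.aestronglyMeasurable,
    integral_fintype (Integrable.of_finite), ← e.sum_comp, Finset.mul_sum]
  refine Finset.sum_congr rfl fun x _ => ?_
  have : (Measure.pi fun _ : Fin 2 × Fin 3 => ν).real {e x} = 1 / 7 ^ 6 := by
    simp [measureReal_def, ν, uniformOn_univ]
  rw [this, smul_eq_mul]

def sA (a b c d e f : ℕ) : ℕ :=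
  if d < b ∧ c < e then (200 + a) + (200 + f)
  else if b + c ≤ d + e then (200 + a) + (200 + d) + (200 + f)
  else (200 + a) + (200 + c) + (200 + f)

def sB (_a b c d e _f : ℕ) : ℕ :=
  if d < b ∧ c < e then (200 + b) + (200 + e)
  else if b + c ≤ d + e then (200 + e)
  else (200 + b)

def sM (a b c d e f : ℕ) : ℕ :=
  max (max (999 * ((200 + a) + (200 + d) + (200 + f)) + 1001 * (200 + e))
    (999 * ((200 + a) + (200 + f)) + 1001 * ((200 + b) + (200 + e))))
    (999 * ((200 + a) + (200 + c) + (200 + f)) + 1001 * (200 + b))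

def selA (x : Fin 7 × Fin 7 × Fin 7 × Fin 7 × Fin 7 × Fin 7) : ℕ :=
  sA x.1 x.2.1 x.2.2.1 x.2.2.2.1 x.2.2.2.2.1 x.2.2.2.2.2

def selB (x : Fin 7 × Fin 7 × Fin 7 × Fin 7 × Fin 7 × Fin 7) : ℕ :=
  sB x.1 x.2.1 x.2.2.1 x.2.2.2.1 x.2.2.2.2.1 x.2.2.2.2.2

def selM (x : Fin 7 × Fin 7 × Fin 7 × Fin 7 × Fin 7 × Fin 7) : ℕ :=
  sM x.1 x.2.1 x.2.2.1 x.2.2.2.1 x.2.2.2.2.1 x.2.2.2.2.2

def loop (f : ℕ → ℕ) : ℕ := f 0 + f 1 + f 2 + f 3 + f 4 + f 5 + f 6

lemma sum_loop (f : ℕ → ℕ) : ∑ a : Fin 7, f a = loop f := by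
  rw [Fin.sum_univ_seven]; rfl

lemma sum6 (φ : ℕ → ℕ → ℕ → ℕ → ℕ → ℕ → ℕ) :
    ∑ x : Fin 7 × Fin 7 × Fin 7 × Fin 7 × Fin 7 × Fin 7,
      φ x.1 x.2.1 x.2.2.1 x.2.2.2.1 x.2.2.2.2.1 x.2.2.2.2.2 =
    loop fun a => loop fun b => loop fun c => loop fun d => loop fun e => loop fun f =>
      φ a b c d e f := by
  simp only [Fintype.sum_prod_type]
  rw [← sum_loop]
  refine Finset.sum_congr rfl fun a _ => ?_
  rw [← sum_loop]
  refine Finset.sum_congr rfl fun b _ => ?_
  rw [← sum_loop]
  refine Finset.sum_congr rfl fun c _ => ?_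
  rw [← sum_loop]
  refine Finset.sum_congr rfl fun d _ => ?_
  rw [← sum_loop]
  refine Finset.sum_congr rfl fun e _ => ?_
  rw [← sum_loop]

lemma sumA : ∑ x, selA x = 67376176 := by
  unfold selA
  rw [sum6]
  decide +kernel

lemma sumB : ∑ x, selB x = 28383936 := by
  unfold selB
  rw [sum6]
  decide +kernel

lemma sumM : ∑ x, selM x = 95727950262 := by
  unfold selM
  rw [sum6]
  decide +kernel

lemma makespan_eq (r : Regime) (hr : r ≠ .communications 0) (s : Fin 3 → ℝ) (hs : ∀ j, 0 < s j)
    (x : Fin 7 × Fin 7 × Fin 7 × Fin 7 × Fin 7 × Fin 7) :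
    makespan 2 3 r s (fun p => g (e x p)) =
      max (max (g x.1 / s 0 + g x.2.2.2.1 / s 0 + g x.2.2.2.2.1 / s 1 + g x.2.2.2.2.2 / s 2)
        (g x.1 / s 0 + g x.2.1 / s 1 + g x.2.2.2.2.1 / s 1 + g x.2.2.2.2.2 / s 2))
        (g x.1 / s 0 + g x.2.1 / s 1 + g x.2.2.1 / s 2 + g x.2.2.2.2.2 / s 2) := by
  unfold makespan
  rw [D_two_three r hr]
  · rfl
  · intro i j
    unfold serviceTime
    split_ifs
    · exact div_nonneg (Nat.cast_nonneg _) (hs _).le
    · exact le_rfl

noncomputable def s₀ : Fin 3 → ℝ := ![1001 / 3001, 999 / 3001, 1001 / 3001]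

lemma s₀_mem : InSimplex s₀ := by
  refine ⟨fun j => ?_, ?_⟩
  · fin_cases j <;> simp [s₀]
  · simp [s₀, Fin.sum_univ_three]; norm_num

lemma F_s₀ (r : Regime) (hr : r ≠ .communications 0) :
    F 2 3 r μ₀ s₀ = (1 / 7 ^ 6) * ((3001 / (1001 * 999)) * 95727950262) := by
  unfold F
  rw [integral_eq _ (measurable_makespan _ _ _ _)]
  congr 1
  have : (95727950262 : ℝ) = ∑ x, (selM x : ℝ) := by
    rw [← Nat.cast_sum, sumM]; norm_num
  rw [this, Finset.mul_sum]
  refine Finset.sum_congr rfl fun x _ => ?_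
  rw [makespan_eq r hr s₀ s₀_mem.1]
  simp only [selM, sM, Nat.cast_max, mul_max_of_nonneg _ _ (by norm_num : (0:ℝ) ≤ 3001 / (1001 * 999))]
  have h0 : s₀ 0 = 1001 / 3001 := rfl
  have h1 : s₀ 1 = 999 / 3001 := rfl
  have h2 : s₀ 2 = 1001 / 3001 := rfl
  rw [h0, h1, h2]
  unfold g
  congr 1
  · congr 1
    · push_cast; ring
    · push_cast; ring
  · push_cast; ring

lemma F_lower (r : Regime) (hr : r ≠ .communications 0) (s : Fin 3 → ℝ) (hs : InSimplex s)
    (hb : Bowl s) : (1 / 7 ^ 6) * (3 * (67376176 + 28383936)) ≤ F 2 3 r μ₀ s := by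
  unfold F
  rw [integral_eq _ (measurable_makespan _ _ _ _)]
  apply mul_le_mul_of_nonneg_left _ (by positivity)
  have h20 : s 2 = s 0 := by simpa using hb.1 2
  have h01 : s 0 ≤ s 1 := hb.2 0 1 (by decide) (by decide)
  have hsum : s 0 + s 1 + s 2 = 1 := by simpa [Fin.sum_univ_three] using hs.2
  have p0 := hs.1 0
  have p1 := hs.1 1
  have key : ∀ x, (selA x : ℝ) / s 0 + (selB x : ℝ) / s 1 ≤
      makespan 2 3 r s (fun p => g (e x p)) := by
    intro x
    rw [makespan_eq r hr s hs.1, h20]
    unfold selA selB sA sB g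
    split_ifs
    · refine le_trans (le_of_eq ?_) (le_trans (le_max_right _ _) (le_max_left _ _))
      push_cast; ring
    · refine le_trans (le_of_eq ?_) (le_trans (le_max_left _ _) (le_max_left _ _))
      push_cast; ring
    · refine le_trans (le_of_eq ?_) (le_max_right _ _)
      push_cast; ring
  refine le_trans ?_ (Finset.sum_le_sum fun x _ => key x)
  rw [Finset.sum_add_distrib, ← Finset.sum_div, ← Finset.sum_div, ← Nat.cast_sum, ← Nat.cast_sum,
    sumA, sumB]
  have hs1 : s 1 = 1 - 2 * s 0 := by linarith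
  have h13 : 3 * s 0 ≤ 1 := by linarith
  rw [div_add_div _ _ p0.ne' p1.ne', le_div_iff₀ (mul_pos p0 p1), hs1]
  push_cast
  nlinarith [mul_nonneg (sub_nonneg.2 h13) (sub_nonneg.2 h13), mul_nonneg (sub_nonneg.2 h13) p0.le]

theorem result :
    ∃ μ : Measure ℝ, IsProbabilityMeasure μ ∧ μ (Set.Iio 0) = 0 ∧ Integrable id μ ∧
      ∀ r : Regime, r ≠ Regime.communications 0 →
        (∀ s : Fin 3 → ℝ,
          Integrable (makespan 2 3 r s) (Measure.pi fun _ : Fin 2 × Fin 3 => μ)) ∧
        ∃ s₀ : Fin 3 → ℝ, InSimplex s₀ ∧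
          ∀ s : Fin 3 → ℝ, InSimplex s → Bowl s → F 2 3 r μ s₀ < F 2 3 r μ s := by
  refine ⟨μ₀, inferInstance, ?_, ?_, fun r hr => ⟨fun s => ?_, s₀, s₀_mem, fun s hs hb => ?_⟩⟩
  · rw [μ₀, Measure.map_apply g_meas measurableSet_Iio]
    have : g ⁻¹' Set.Iio 0 = ∅ := by
      ext a
      simp only [Set.mem_preimage, Set.mem_Iio, Set.mem_empty_iff_false, iff_false, not_lt]
      exact Nat.cast_nonneg _
    simp [this]
  · rw [μ₀, integrable_map_measure aestronglyMeasurable_id g_meas.aemeasurable]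
    exact Integrable.of_finite
  · rw [pi_eq, integrable_map_measure (measurable_makespan _ _ _ _).aestronglyMeasurable
      (Measurable.of_discrete).aemeasurable]
    exact Integrable.of_finite
  · refine lt_of_lt_of_le ?_ (F_lower r hr s hs hb)
    rw [F_s₀ r hr]
    norm_num

end Pool.Agent.Results.MP_eb4cdf_pr.Counter
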